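import Mathlib

/-!
The equational theory of representable implication semigroups has no finite basis.
-/

set_option autoImplicit false

namespace Pool.Agent.Results.MP_634bde_lc.NotFinitelyBased

universe u

/-- Terms built from the variables `x₀, x₁, …` using `→` (`imp`) and `;` (`comp`). -/
inductive Term : Type
  | var : ℕ → Term
  | imp : Term → Term → Term
  | comp : Term → Term → Term

/-- An algebra `(S, →, ;)` with two binary operations. -/
structure Alg : Type (u + 1) where
  carrier : Type u
  imp : carrier → carrier → carrier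
  comp : carrier → carrier → carrier

/-- The value of a term in an algebra under an assignment of the variables. -/
def Alg.eval (A : Alg.{u}) (v : ℕ → A.carrier) : Term → A.carrier
  | .var n => v n
  | .imp s t => A.imp (A.eval v s) (A.eval v t)
  | .comp s t => A.comp (A.eval v s) (A.eval v t)

/-- The equation `e.1 = e.2` is valid in the algebra `A`. -/
def Alg.Satisfies (A : Alg.{u}) (e : Term × Term) : Prop :=
  ∀ v : ℕ → A.carrier, A.eval v e.1 = A.eval v e.2

/-- `T` is a transitive relation on `X`. -/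
def IsTransRel {X : Type u} (T : Set (X × X)) : Prop :=
  ∀ x y z : X, (x, y) ∈ T → (y, z) ∈ T → (x, z) ∈ T

/-- The algebra `𝔖(T)` of all subrelations of a transitive relation `T` on `X`, with relative
implication `a → b = (T ∖ a) ∪ b` and relational composition. -/
def fullAlg {X : Type u} (T : Set (X × X)) (hT : IsTransRel T) : Alg.{u} where
  carrier := {a : Set (X × X) // a ⊆ T}
  imp a b := ⟨(T \ a.1) ∪ b.1, Set.union_subset Set.sdiff_subset b.2⟩
  comp a b := ⟨{p | ∃ y, (p.1, y) ∈ a.1 ∧ (y, p.2) ∈ b.1}, by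
    rintro ⟨x, z⟩ ⟨y, h1, h2⟩
    exact hT x y z (a.2 h1) (b.2 h2)⟩

/-- `A` is a representable implication semigroup: it is isomorphic to a subalgebra of some
`𝔖(T)` with `T` transitive, i.e. it embeds into such an algebra. -/
def Alg.Representable (A : Alg.{u}) : Prop :=
  ∃ (X : Type u) (T : Set (X × X)) (hT : IsTransRel T) (h : A.carrier → (fullAlg T hT).carrier),
    Function.Injective h ∧
    (∀ a b, h (A.imp a b) = (fullAlg T hT).imp (h a) (h b)) ∧
    (∀ a b, h (A.comp a b) = (fullAlg T hT).comp (h a) (h b))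

/-- The equational theory of the class of representable implication semigroups. -/
def EqTheory : Set (Term × Term) :=
  {e | ∀ A : Alg.{u}, A.Representable → A.Satisfies e}

/-! ### Ramsey's theorem for triangles in an ordered set -/

theorem ramsey (n : ℕ) : ∃ N : ℕ, ∀ (c : ℕ → ℕ → ℕ) (S K : Finset ℕ), K.card = n → N ≤ S.card →
    (∀ i ∈ S, ∀ j ∈ S, i < j → c i j ∈ K) →
    ∃ i ∈ S, ∃ j ∈ S, ∃ k ∈ S, i < j ∧ j < k ∧ c i j = c i k ∧ c j k = c i k := by
  induction n with
  | zero =>
    refine ⟨2, fun c S K hK hS h => ?_⟩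
    obtain ⟨a, ha, b, hb, hab⟩ := Finset.one_lt_card.mp (show 1 < S.card by omega)
    have hK0 : K = ∅ := Finset.card_eq_zero.mp hK
    rcases lt_or_gt_of_ne hab with h1 | h1
    · exact absurd (h a ha b hb h1) (by simp [hK0])
    · exact absurd (h b hb a ha h1) (by simp [hK0])
  | succ n ih =>
    obtain ⟨N, hN⟩ := ih
    refine ⟨(n + 1) * N + 2, fun c S K hK hS h => ?_⟩
    have hne : S.Nonempty := Finset.card_pos.mp (by omega)
    set i := S.min' hne with hi
    have hiS : i ∈ S := S.min'_mem hne
    set S' := S.erase i with hS'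
    have hcard : (n + 1) * N < S'.card := by
      rw [hS', Finset.card_erase_of_mem hiS]; omega
    have hlt : ∀ j ∈ S', i < j := by
      intro j hj
      have hj' := Finset.mem_erase.mp hj
      exact lt_of_le_of_ne (S.min'_le j hj'.2) (Ne.symm hj'.1)
    have hmaps : ∀ j ∈ S', c i j ∈ K := fun j hj =>
      h i hiS j (Finset.mem_of_mem_erase hj) (hlt j hj)
    obtain ⟨k, hkK, hk⟩ := Finset.exists_lt_card_fiber_of_mul_lt_card_of_maps_to hmaps
      (by rw [hK]; exact hcard)
    by_cases hex : ∃ j ∈ S', ∃ l ∈ S', j < l ∧ c i j = k ∧ c i l = k ∧ c j l = k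
    · obtain ⟨j, hj, l, hl, hjl, h1, h2, h3⟩ := hex
      exact ⟨i, hiS, j, Finset.mem_of_mem_erase hj, l, Finset.mem_of_mem_erase hl, hlt j hj, hjl,
        by rw [h1, h2], by rw [h3, h2]⟩
    · push Not at hex
      obtain ⟨a, ha, b, hb, d, hd, hab, hbd, h1, h2⟩ := hN c (S'.filter fun j => c i j = k)
        (K.erase k) (by rw [Finset.card_erase_of_mem hkK, hK]; rfl) hk.le (by
          intro a ha b hb hab
          rw [Finset.mem_filter] at ha hb
          refine Finset.mem_erase.mpr ⟨hex a ha.1 b hb.1 hab ha.2 hb.2, ?_⟩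
          exact h a (Finset.mem_of_mem_erase ha.1) b (Finset.mem_of_mem_erase hb.1) hab)
      rw [Finset.mem_filter] at ha hb hd
      exact ⟨a, Finset.mem_of_mem_erase ha.1, b, Finset.mem_of_mem_erase hb.1, d,
        Finset.mem_of_mem_erase hd.1, hab, hbd, h1, h2⟩

/-! ### The Ramsey equations -/

/-- The variable `z = xₙ`, playing the part of a lower bound. -/
abbrev Z (n : ℕ) : Term := .var n

/-- `1 = z → z`. -/
def one (n : ℕ) : Term := .imp (Z n) (Z n)

/-- `s ∨ t = (s → t) → t`. -/
def join (s t : Term) : Term := .imp (.imp s t) t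

/-- `(s ∧ t) ∨ z`. -/
def meetZ (n : ℕ) (s t : Term) : Term := .imp (.imp s (.imp t (Z n))) (Z n)

/-- `(xᵢ ∧ (xᵢ ; xᵢ)) ∨ z`. -/
def bad (n i : ℕ) : Term := meetZ n (.var i) (.comp (.var i) (.var i))

/-- `z ∨ x₀ ∨ ⋯ ∨ x_{k-1}`. -/
def bigJoin (n : ℕ) : ℕ → Term
  | 0 => Z n
  | k + 1 => join (.var k) (bigJoin n k)

/-- `b₀ ∨ ⋯ ∨ b_{k-1} ∨ ¬(x₀ ∨ ⋯ ∨ x_{n-1}) ∨ z` with `bᵢ = xᵢ ∧ (xᵢ ; xᵢ)`. -/
def err (n : ℕ) : ℕ → Term
  | 0 => .imp (bigJoin n n) (Z n)
  | k + 1 => join (bad n k) (err n k)

/-- The ideal generated by `e`: `e ∨ 1;e ∨ e;1 ∨ 1;e;1`. -/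
def ideal (n : ℕ) (e : Term) : Term :=
  join (join e (.comp (one n) e)) (join (.comp e (one n)) (.comp (one n) (.comp e (one n))))

/-- `1 ; 1 ; ⋯ ; 1` with `k + 1` factors. -/
def pow (n : ℕ) : ℕ → Term
  | 0 => one n
  | k + 1 => .comp (one n) (pow n k)

/-- The equation `1^{N+1} ∨ ideal(err) = ideal(err)`. -/
def eqn (n N : ℕ) : Term × Term :=
  (join (pow n N) (ideal n (err n n)), ideal n (err n n))

section full

variable {X : Type u} {T : Set (X × X)} (hT : IsTransRel T) (v : ℕ → (fullAlg T hT).carrier)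

theorem eval_one (n : ℕ) : ((fullAlg T hT).eval v (one n)).1 = T := by
  change (T \ (v n).1) ∪ (v n).1 = T
  exact Set.sdiff_union_of_subset (v n).2

theorem eval_join (s t : Term) : ((fullAlg T hT).eval v (join s t)).1 =
    ((fullAlg T hT).eval v s).1 ∪ ((fullAlg T hT).eval v t).1 := by
  change (T \ ((T \ ((fullAlg T hT).eval v s).1) ∪ ((fullAlg T hT).eval v t).1)) ∪
    ((fullAlg T hT).eval v t).1 = _
  have h1 := ((fullAlg T hT).eval v s).2
  have h2 := ((fullAlg T hT).eval v t).2
  ext p
  have h1' := @h1 p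
  have h2' := @h2 p
  simp only [Set.mem_union, Set.mem_sdiff]
  tauto

theorem mem_meetZ (n : ℕ) (s t : Term) (p : X × X)
    (hs : p ∈ ((fullAlg T hT).eval v s).1) (ht : p ∈ ((fullAlg T hT).eval v t).1) :
    p ∈ ((fullAlg T hT).eval v (meetZ n s t)).1 := by
  change p ∈ (T \ ((T \ ((fullAlg T hT).eval v s).1) ∪
    ((T \ ((fullAlg T hT).eval v t).1) ∪ (v n).1))) ∪ (v n).1
  have h1 := ((fullAlg T hT).eval v s).2 hs
  simp only [Set.mem_union, Set.mem_sdiff]
  tauto

theorem mem_bigJoin (n k : ℕ) (p : X × X)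
    (hp : p ∈ ((fullAlg T hT).eval v (bigJoin n k)).1) :
    p ∈ (v n).1 ∨ ∃ i < k, p ∈ (v i).1 := by
  induction k with
  | zero => exact Or.inl hp
  | succ k ih =>
    rw [bigJoin, eval_join] at hp
    rcases hp with hp | hp
    · exact Or.inr ⟨k, Nat.lt_succ_self k, hp⟩
    · rcases ih hp with h | ⟨i, hi, h⟩
      · exact Or.inl h
      · exact Or.inr ⟨i, Nat.lt_succ_of_lt hi, h⟩

theorem err_zero_sub (n k : ℕ) : ((fullAlg T hT).eval v (err n 0)).1 ⊆
    ((fullAlg T hT).eval v (err n k)).1 := by
  induction k with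
  | zero => exact subset_rfl
  | succ k ih =>
    rw [show err n (k + 1) = join (bad n k) (err n k) from rfl, eval_join]
    exact ih.trans Set.subset_union_right

theorem bad_sub_err (n k i : ℕ) (hi : i < k) : ((fullAlg T hT).eval v (bad n i)).1 ⊆
    ((fullAlg T hT).eval v (err n k)).1 := by
  induction k with
  | zero => omega
  | succ k ih =>
    rw [err, eval_join]
    rcases Nat.lt_succ_iff_lt_or_eq.mp hi with h | h
    · exact (ih h).trans Set.subset_union_right
    · rw [h]; exact Set.subset_union_left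

theorem exists_colour (n : ℕ) (p : X × X) (hp : p ∈ T)
    (hp' : p ∉ ((fullAlg T hT).eval v (err n n)).1) : ∃ i < n, p ∈ (v i).1 := by
  have h0 : p ∉ ((fullAlg T hT).eval v (err n 0)).1 := fun h => hp' (err_zero_sub hT v n n h)
  have h1 : p ∉ (T \ ((fullAlg T hT).eval v (bigJoin n n)).1) ∪ (v n).1 := h0
  simp only [Set.mem_union, Set.mem_sdiff, not_or, not_and, not_not] at h1
  rcases mem_bigJoin hT v n n p (h1.1 hp) with h | h
  · exact absurd h h1.2
  · exact h

theorem chain_of_pow (n k : ℕ) (x y : X) (h : (x, y) ∈ ((fullAlg T hT).eval v (pow n k)).1) :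
    ∃ w : ℕ → X, w 0 = x ∧ w (k + 1) = y ∧ ∀ i ≤ k, (w i, w (i + 1)) ∈ T := by
  induction k generalizing x with
  | zero =>
    rw [pow, eval_one] at h
    refine ⟨fun i => if i = 0 then x else y, by simp, by simp, ?_⟩
    intro i hi
    have : i = 0 := by omega
    subst this
    simpa using h
  | succ k ih =>
    obtain ⟨z, hz1, hz2⟩ := h
    have hz1' : (x, z) ∈ ((fullAlg T hT).eval v (one n)).1 := hz1
    rw [eval_one] at hz1'
    obtain ⟨w, hw0, hwk, hw⟩ := ih z hz2
    refine ⟨fun i => Nat.casesOn i x w, rfl, hwk, ?_⟩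
    intro i hi
    cases i with
    | zero => 
      change (x, w 0) ∈ T
      rw [hw0]; exact hz1'
    | succ i => exact hw i (by omega)

include hT in
theorem chain_trans (k : ℕ) (w : ℕ → X) (hw : ∀ i ≤ k, (w i, w (i + 1)) ∈ T) :
    ∀ i j, i < j → j ≤ k + 1 → (w i, w j) ∈ T := by
  intro i j hij hj
  induction j with
  | zero => omega
  | succ j ih =>
    rcases Nat.lt_succ_iff_lt_or_eq.mp hij with h | h
    · exact hT _ _ _ (ih h (by omega)) (hw j (by omega))
    · subst h; exact hw i (by omega)

theorem mem_ideal (n : ℕ) (e : Term) (x y a b : X)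
    (hab : (a, b) ∈ ((fullAlg T hT).eval v e).1)
    (hxa : x = a ∨ (x, a) ∈ T) (hby : b = y ∨ (b, y) ∈ T) :
    (x, y) ∈ ((fullAlg T hT).eval v (ideal n e)).1 := by
  rw [ideal, eval_join, eval_join, eval_join]
  have h1 : ((fullAlg T hT).eval v (one n)).1 = T := eval_one hT v n
  rcases hxa with rfl | hxa
  · rcases hby with rfl | hby
    · exact Or.inl (Or.inl hab)
    · refine Or.inr (Or.inl ⟨b, hab, ?_⟩)
      rw [h1]; exact hby
  · rcases hby with rfl | hby
    · refine Or.inl (Or.inr ⟨a, ?_, hab⟩)
      rw [h1]; exact hxa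
    · refine Or.inr (Or.inr ⟨a, ?_, ⟨b, hab, ?_⟩⟩)
      · rw [h1]; exact hxa
      · rw [h1]; exact hby

theorem eqn_full (n N : ℕ)
    (hN : ∀ (c : ℕ → ℕ → ℕ) (S K : Finset ℕ), K.card = n → N ≤ S.card →
      (∀ i ∈ S, ∀ j ∈ S, i < j → c i j ∈ K) →
      ∃ i ∈ S, ∃ j ∈ S, ∃ k ∈ S, i < j ∧ j < k ∧ c i j = c i k ∧ c j k = c i k) :
    (fullAlg T hT).eval v (eqn n N).1 = (fullAlg T hT).eval v (eqn n N).2 := by
  apply Subtype.ext
  change ((fullAlg T hT).eval v (join (pow n N) (ideal n (err n n)))).1 =
    ((fullAlg T hT).eval v (ideal n (err n n))).1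
  rw [eval_join]
  apply Set.union_eq_self_of_subset_left
  rintro ⟨x, y⟩ hxy
  by_contra hcon
  obtain ⟨w, hw0, hwN, hw⟩ := chain_of_pow hT v n N x y hxy
  have htr := chain_trans hT N w hw
  have hno : ∀ i j, i < j → j ≤ N + 1 → (w i, w j) ∉ ((fullAlg T hT).eval v (err n n)).1 := by
    intro i j hij hj hmem
    apply hcon
    apply mem_ideal hT v n _ x y (w i) (w j) hmem
    · rcases Nat.eq_zero_or_pos i with h | h
      · subst h; exact Or.inl hw0.symm
      · right; rw [← hw0]; exact htr 0 i h (by omega)
    · rcases Nat.lt_or_ge j (N + 1) with h | h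
      · right; rw [← hwN]; exact htr j (N + 1) h le_rfl
      · left
        have : j = N + 1 := by omega
        rw [this]; exact hwN
  have hcol : ∀ i j, i < j → j ≤ N + 1 → ∃ c < n, (w i, w j) ∈ (v c).1 := fun i j hij hj =>
    exists_colour hT v n _ (htr i j hij hj) (hno i j hij hj)
  classical
  let c : ℕ → ℕ → ℕ := fun i j =>
    if h : i < j ∧ j ≤ N + 1 then (hcol i j h.1 h.2).choose else 0
  have hc : ∀ i j, i < j → j ≤ N + 1 → c i j < n ∧ (w i, w j) ∈ (v (c i j)).1 := by
    intro i j hij hj
    have : c i j = (hcol i j hij hj).choose := dif_pos ⟨hij, hj⟩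
    rw [this]
    exact (hcol i j hij hj).choose_spec
  obtain ⟨i, hi, j, hj, k, hk, hij, hjk, h1, h2⟩ := hN c (Finset.range (N + 2)) (Finset.range n)
    (Finset.card_range n) (by rw [Finset.card_range]; omega) (by
      intro i hi j hj hij
      rw [Finset.mem_range] at hi hj ⊢
      exact (hc i j hij (by omega)).1)
  rw [Finset.mem_range] at hi hj hk
  have hik := hc i k (by omega) (by omega)
  have hij' := hc i j hij (by omega)
  have hjk' := hc j k hjk (by omega)
  apply hno i k (by omega) (by omega)
  apply bad_sub_err hT v n n (c i k) hik.1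
  apply mem_meetZ hT v n _ _ _ hik.2
  refine ⟨w j, ?_, ?_⟩
  · rw [← h1]; exact hij'.2
  · rw [← h2]; exact hjk'.2

end full

/-- Homomorphisms into `𝔖(T)` commute with evaluation. -/
theorem eval_hom {X : Type u} {T : Set (X × X)} (hT : IsTransRel T) (A : Alg.{u})
    (h : A.carrier → (fullAlg T hT).carrier)
    (himp : ∀ a b, h (A.imp a b) = (fullAlg T hT).imp (h a) (h b))
    (hcomp : ∀ a b, h (A.comp a b) = (fullAlg T hT).comp (h a) (h b))
    (v : ℕ → A.carrier) (t : Term) :
    h (A.eval v t) = (fullAlg T hT).eval (fun i => h (v i)) t := by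
  induction t with
  | var n => rfl
  | imp s t hs ht => rw [Alg.eval, himp, hs, ht]; rfl
  | comp s t hs ht => rw [Alg.eval, hcomp, hs, ht]; rfl

theorem eqn_mem (n : ℕ) : ∃ N, eqn n N ∈ EqTheory.{u} := by
  obtain ⟨N, hN⟩ := ramsey n
  refine ⟨N, ?_⟩
  rintro A ⟨X, T, hT, h, hinj, himp, hcomp⟩ v
  apply hinj
  rw [eval_hom hT A h himp hcomp, eval_hom hT A h himp hcomp]
  exact eqn_full hT _ n N hN

theorem full_satisfies {X : Type u} {T : Set (X × X)} (hT : IsTransRel T) (e : Term × Term)
    (he : e ∈ EqTheory.{u}) : (fullAlg T hT).Satisfies e :=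
  he (fullAlg T hT) ⟨X, T, hT, id, Function.injective_id, fun _ _ => rfl, fun _ _ => rfl⟩

/-! ### The algebras of colours -/

/-- Composition of sets of colours: a triangle `(x, y, c)` of colours is allowed unless
`x = y = c` and `P c`. -/
def cComp {C : Type u} (P : C → Prop) (a b : Set C) : Set C :=
  {c | ∃ x ∈ a, ∃ y ∈ b, ¬ (x = c ∧ y = c ∧ P c)}

theorem mem_cComp {C : Type u} (P : C → Prop) (a b : Set C) (c : C) :
    c ∈ cComp P a b ↔ ∃ x ∈ a, ∃ y ∈ b, ¬ (x = c ∧ y = c ∧ P c) := Iff.rfl

/-- The complex algebra on the subsets of a set `C` of colours, in which a triangle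
`(x, y, c)` of colours is allowed unless `x = y = c` and `P c`. -/
def colAlg (C : Type u) (P : C → Prop) : Alg.{u} where
  carrier := Set C
  imp a b := aᶜ ∪ b
  comp a b := cComp P a b

/-- Evaluation in `colAlg C P`. -/
def cev {C : Type u} (P : C → Prop) (v : ℕ → Set C) : Term → Set C
  | .var n => v n
  | .imp s t => (cev P v s)ᶜ ∪ cev P v t
  | .comp s t => cComp P (cev P v s) (cev P v t)

theorem eval_colAlg {C : Type u} (P : C → Prop) (v : ℕ → Set C) (t : Term) :
    (colAlg C P).eval v t = cev P v t := by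
  induction t with
  | var n => rfl
  | imp s t hs ht => exact congrArg₂ (fun a b : Set C => aᶜ ∪ b) hs ht
  | comp s t hs ht => exact congrArg₂ (fun a b : Set C => cComp P a b) hs ht

/-- The points of the representation of `colAlg C P`: a base point, and a witness
`wit x z a b` for a factorisation of the pair `(x, z)` by the colours `a` and `b`. -/
inductive Pt (C : Type u) : Type u
  | base : Pt C
  | wit : Pt C → Pt C → C → C → Pt C

namespace Pt

variable {C : Type u}

/-- The left parent. -/
def left : Pt C → Option (Pt C)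
  | base => none
  | wit x _ _ _ => some x

/-- The right parent. -/
def right : Pt C → Option (Pt C)
  | base => none
  | wit _ z _ _ => some z

/-- The height of a point. -/
def height : Pt C → ℕ
  | base => 0
  | wit x z _ _ => x.height + z.height + 1

theorem height_left {x z : Pt C} (h : left z = some x) : x.height < z.height := by
  cases z with
  | base => cases h
  | wit u w a b =>
    have : u = x := Option.some.inj h
    subst this
    simp only [height]; omega

theorem height_right {x z : Pt C} (h : right x = some z) : z.height < x.height := by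
  cases x with
  | base => cases h
  | wit u w a b =>
    have : w = z := Option.some.inj h
    subst this
    simp only [height]; omega

open Classical in
/-- The colour of the pair `(x, z)` when the points `x` and `z` carry the colours `gx`, `gz`. -/
noncomputable def labW (q : C) (gx gz : C × C) (x z : Pt C) : C :=
  if left z = some x then gz.1 else if right x = some z then gx.2 else q

open Classical in
/-- The colours of the pairs `(x, y)` and `(y, z)` where `x`, `z` are the parents of `y`. -/
noncomputable def g (P : C → Prop) (q : C) : Pt C → C × C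
  | base => (q, q)
  | wit x z a b =>
    if a = labW q (g P q x) (g P q z) x z ∧ b = labW q (g P q x) (g P q z) x z ∧
      P (labW q (g P q x) (g P q z) x z) then (q, q) else (a, b)

/-- The colour of the pair `(x, z)`. -/
noncomputable def lab (P : C → Prop) (q : C) (x z : Pt C) : C :=
  labW q (g P q x) (g P q z) x z

theorem g_wit (P : C → Prop) (q : C) (x z : Pt C) (a b : C) (h : ¬ (a = lab P q x z ∧
    b = lab P q x z ∧ P (lab P q x z))) : g P q (wit x z a b) = (a, b) := by
  rw [g]; exact if_neg h

theorem g_wit' (P : C → Prop) (q : C) (x z : Pt C) (a b : C) (h : a = lab P q x z ∧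
    b = lab P q x z ∧ P (lab P q x z)) : g P q (wit x z a b) = (q, q) := by
  rw [g]; exact if_pos h

theorem lab_left (P : C → Prop) (q : C) {x z : Pt C} (h : left z = some x) :
    lab P q x z = (g P q z).1 := by
  rw [lab, labW, if_pos h]

theorem lab_right (P : C → Prop) (q : C) {x z : Pt C} (h : right x = some z) :
    lab P q x z = (g P q x).2 := by
  rw [lab, labW, if_neg, if_pos h]
  intro h'
  have h1 := height_left h'
  have h2 := height_right h
  omega

theorem lab_cases (P : C → Prop) (q : C) (x z : Pt C) (h : lab P q x z ≠ q) :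
    left z = some x ∨ right x = some z := by
  by_contra hcon
  rw [not_or] at hcon
  exact h (by rw [lab, labW, if_neg hcon.1, if_neg hcon.2])

/-- There is no forbidden triangle. -/
theorem no_bad (P : C → Prop) (q : C) (hq : ¬ P q) (x y z : Pt C) :
    ¬ (lab P q x y = lab P q x z ∧ lab P q y z = lab P q x z ∧ P (lab P q x z)) := by
  rintro ⟨h1, h2, h3⟩
  have hne : lab P q x z ≠ q := fun h => hq (h ▸ h3)
  have key : left y = some x → right y = some z → False := by
    intro hl hr
    cases y with
    | base => cases hl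
    | wit u w a b =>
      have hu : u = x := Option.some.inj hl
      have hw : w = z := Option.some.inj hr
      subst hu; subst hw
      rw [lab_left P q hl] at h1
      rw [lab_right P q hr] at h2
      by_cases hc : a = lab P q u w ∧ b = lab P q u w ∧ P (lab P q u w)
      · rw [g_wit' P q u w a b hc] at h1
        exact hne h1.symm
      · rw [g_wit P q u w a b hc] at h1 h2
        exact hc ⟨h1, h2, h3⟩
  rcases lab_cases P q x y (h1 ▸ hne) with a1 | a1 <;>
  rcases lab_cases P q y z (h2 ▸ hne) with a2 | a2 <;>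
  rcases lab_cases P q x z hne with a3 | a3
  · have : y = x := Option.some.inj (a2.symm.trans a3)
    subst this; exact absurd (height_left a1) (lt_irrefl _)
  · have b1 := height_left a1
    have b2 := height_left a2
    have b3 := height_right a3
    omega
  · exact key a1 a2
  · exact key a1 a2
  · have : y = x := Option.some.inj (a2.symm.trans a3)
    subst this; exact absurd (height_right a1) (lt_irrefl _)
  · have : y = z := Option.some.inj (a1.symm.trans a3)
    subst this; exact absurd (height_left a2) (lt_irrefl _)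
  · have b1 := height_right a1
    have b2 := height_right a2
    have b3 := height_left a3
    omega
  · have : y = z := Option.some.inj (a1.symm.trans a3)
    subst this; exact absurd (height_right a2) (lt_irrefl _)

/-- Every allowed factorisation is witnessed. -/
theorem witness (P : C → Prop) (q : C) (x z : Pt C) (a b : C) (h : ¬ (a = lab P q x z ∧
    b = lab P q x z ∧ P (lab P q x z))) : ∃ y, lab P q x y = a ∧ lab P q y z = b := by
  refine ⟨wit x z a b, ?_, ?_⟩
  · rw [lab_left P q (show left (wit x z a b) = some x from rfl), g_wit P q x z a b h]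
  · rw [lab_right P q (show right (wit x z a b) = some z from rfl), g_wit P q x z a b h]

end Pt

/-- The colour algebra is representable as soon as it has a flexible colour `q`. -/
theorem colAlg_representable (C : Type u) (P : C → Prop) (q : C) (hq : ¬ P q) :
    (colAlg C P).Representable := by
  let H : Set C → Set (Pt C × Pt C) := fun S => {p | Pt.lab P q p.1 p.2 ∈ S}
  have hH : ∀ (S : Set C) (x z : Pt C), (x, z) ∈ H S ↔ Pt.lab P q x z ∈ S :=
    fun _ _ _ => Iff.rfl
  have hinj : Function.Injective H := by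
    intro S S' h
    ext c
    have hc : ¬ (c = Pt.lab P q .base .base ∧ q = Pt.lab P q .base .base ∧
        P (Pt.lab P q .base .base)) := by
      rintro ⟨-, h2, h3⟩
      exact hq (h2 ▸ h3)
    obtain ⟨y, hy, -⟩ := Pt.witness P q .base .base c q hc
    have := Set.ext_iff.mp h (.base, y)
    rw [hH, hH, hy] at this
    exact this
  have himp : ∀ S S' : Set C, H (Sᶜ ∪ S') = (Set.univ \ H S) ∪ H S' := by
    intro S S'
    ext ⟨x, z⟩
    simp only [hH, Set.mem_union, Set.mem_compl_iff, Set.mem_sdiff, Set.mem_univ, true_and]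
  have hcomp : ∀ S S' : Set C,
      H (cComp P S S') = {p | ∃ y, (p.1, y) ∈ H S ∧ (y, p.2) ∈ H S'} := by
    intro S S'
    ext ⟨x, z⟩
    constructor
    · rintro ⟨a, ha, b, hb, h⟩
      obtain ⟨y, h1, h2⟩ := Pt.witness P q x z a b h
      exact ⟨y, (hH _ _ _).mpr (by rw [h1]; exact ha), (hH _ _ _).mpr (by rw [h2]; exact hb)⟩
    · rintro ⟨y, h1, h2⟩
      exact ⟨_, h1, _, h2, Pt.no_bad P q hq x y z⟩
  exact ⟨Pt C, Set.univ, fun _ _ _ _ _ => Set.mem_univ _,
    fun S => ⟨H S, Set.subset_univ _⟩, fun S S' h => hinj (congrArg Subtype.val h),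
    fun S S' => Subtype.ext (himp S S'), fun S S' => Subtype.ext (hcomp S S')⟩

/-! ### Passing to a quotient of the set of colours -/

/-- An upper bound for the indices of the variables of a term. -/
def Term.bound : Term → ℕ
  | .var n => n + 1
  | .imp s t => max s.bound t.bound
  | .comp s t => max s.bound t.bound

section quot

variable {C D : Type u} (f : C → D) (hf : Function.Surjective f)

include hf in
theorem preimage_comp (S S' : Set D) :
    f ⁻¹' (cComp (fun d => ∀ i j, f i = d → f j = d → i = j) S S') =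
      cComp (fun _ => True) (f ⁻¹' S) (f ⁻¹' S') := by
  ext c
  constructor
  · rintro ⟨x', hx, y', hy, h⟩
    obtain ⟨x, rfl⟩ := hf x'
    obtain ⟨y, rfl⟩ := hf y'
    by_cases hxy : x = c ∧ y = c
    · obtain ⟨h1, h2⟩ := hxy
      subst h1
      subst h2
      have h' : ¬ ∀ i j, f i = f y → f j = f y → i = j := fun h' => h ⟨rfl, rfl, h'⟩
      push Not at h'
      obtain ⟨i, j, hi, hj, hij⟩ := h'
      by_cases hix : i = y
      · subst hix
        refine ⟨j, ?_, i, hy, fun h' => hij h'.1.symm⟩
        change f j ∈ S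
        rw [hj]; exact hx
      · refine ⟨i, ?_, y, hy, fun h' => hix h'.1⟩
        change f i ∈ S
        rw [hi]; exact hx
    · exact ⟨x, hx, y, hy, fun h' => hxy ⟨h'.1, h'.2.1⟩⟩
  · rintro ⟨x, hx, y, hy, h⟩
    refine ⟨f x, hx, f y, hy, ?_⟩
    rintro ⟨h1, h2, h3⟩
    exact h ⟨h3 x c h1 rfl, h3 y c h2 rfl, trivial⟩

include hf in
theorem cev_quot (k : ℕ) (v : ℕ → Set C) (v' : ℕ → Set D)
    (hv : ∀ i < k, v i = f ⁻¹' (v' i)) (t : Term) (ht : t.bound ≤ k) :
    cev (fun _ => True) v t = f ⁻¹' (cev (fun d => ∀ i j, f i = d → f j = d → i = j) v' t) := by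
  induction t with
  | var n => exact hv n ht
  | imp s t hs ht' =>
    rw [Term.bound, max_le_iff] at ht
    rw [cev, hs ht.1, ht' ht.2]
    rfl
  | comp s t hs ht' =>
    rw [Term.bound, max_le_iff] at ht
    rw [cev, hs ht.1, ht' ht.2]
    exact (preimage_comp f hf _ _).symm

end quot

/-- With more than `2 ^ k` colours, the colour algebra satisfies every equation of `EqTheory`
in the variables `x₀, …, x_{k-1}`. -/
theorem colAlg_satisfies (k : ℕ) (C : Type u) [Fintype C] (hC : 2 ^ k < Fintype.card C)
    (e : Term × Term) (he : e ∈ EqTheory.{u}) (h1 : e.1.bound ≤ k) (h2 : e.2.bound ≤ k) :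
    (colAlg C (fun _ => True)).Satisfies e := by
  classical
  change ∀ v : ℕ → Set C, _
  intro v
  let F : C → (Fin k → Bool) := fun c i => decide (c ∈ v i)
  obtain ⟨i, j, hij, hF⟩ := Fintype.exists_ne_map_eq_of_card_lt F (by simpa using hC)
  let s : Setoid C := Setoid.ker F
  let f : C → Quotient s := Quotient.mk s
  have hf : Function.Surjective f := Quotient.mk_surjective
  have hv : ∀ i < k, v i = f ⁻¹' (f '' (v i)) := by
    intro l hl
    ext c
    constructor
    · intro hc; exact ⟨c, hc, rfl⟩
    · rintro ⟨c', hc', hcc⟩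
      have h3 : F c' = F c := Quotient.exact hcc
      have h4 := congrFun h3 ⟨l, hl⟩
      simp only [F, decide_eq_decide] at h4
      exact h4.mp hc'
  have e1 := cev_quot f hf k v (fun l => f '' (v l)) hv e.1 h1
  have e2 := cev_quot f hf k v (fun l => f '' (v l)) hv e.2 h2
  have hrep := colAlg_representable (Quotient s) (fun d => ∀ i j, f i = d → f j = d → i = j)
    (f i) (fun h => hij (h i j rfl (Quotient.sound (show F j = F i from hF.symm))))
  have h3 := he _ hrep (fun l => f '' (v l))
  rw [eval_colAlg, eval_colAlg] at h3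
  rw [eval_colAlg, eval_colAlg, e1, e2, h3]

/-! ### The Ramsey equation fails in the colour algebra -/

section fails

variable {C : Type u} (P : C → Prop) (v : ℕ → Set C)

theorem cev_one (n : ℕ) : cev P v (one n) = Set.univ := by
  change (v n)ᶜ ∪ (v n) = Set.univ
  exact Set.compl_union_self _

theorem cev_join (s t : Term) : cev P v (join s t) = cev P v s ∪ cev P v t := by
  change ((cev P v s)ᶜ ∪ cev P v t)ᶜ ∪ cev P v t = _
  ext c
  simp only [Set.mem_union, Set.mem_compl_iff]
  tauto

theorem cev_comp_empty_right (s t : Term) (ht : cev P v t = ∅) : cev P v (.comp s t) = ∅ := by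
  rw [cev, ht]
  ext c
  simp [mem_cComp]

theorem cev_comp_empty_left (s t : Term) (hs : cev P v s = ∅) : cev P v (.comp s t) = ∅ := by
  rw [cev, hs]
  ext c
  simp [mem_cComp]

theorem cev_ideal (n : ℕ) (e : Term) (he : cev P v e = ∅) : cev P v (ideal n e) = ∅ := by
  rw [ideal, cev_join, cev_join, cev_join, cev_comp_empty_right P v _ _ he,
    cev_comp_empty_left P v _ _ he,
    cev_comp_empty_right P v _ _ (cev_comp_empty_left P v _ _ he), he]
  simp

end fails

theorem eqn_fails (n N : ℕ) (hn : 2 ≤ n) :
    ¬ (colAlg (ULift.{u} (Fin n)) (fun _ => True)).Satisfies (eqn n N) := by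
  intro hsat
  let v : ℕ → Set (ULift.{u} (Fin n)) := fun i => {c | c.down.val = i}
  have hmem : ∀ i (c : ULift.{u} (Fin n)), c ∈ v i ↔ c.down.val = i := fun _ _ => Iff.rfl
  let P : ULift.{u} (Fin n) → Prop := fun _ => True
  have hvn : v n = ∅ := by
    ext c
    simp only [hmem, Set.mem_empty_iff_false, iff_false]
    exact ne_of_lt c.down.isLt
  have hbad : ∀ i, cev P v (bad n i) = ∅ := by
    intro i
    change ((v i)ᶜ ∪ ((cComp P (v i) (v i))ᶜ ∪ v n))ᶜ ∪ v n = ∅
    rw [hvn]
    ext c
    simp only [Set.mem_union, Set.mem_compl_iff, Set.mem_empty_iff_false, or_false, iff_false,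
      mem_cComp, not_not]
    by_cases hc : c ∈ v i
    · right
      rintro ⟨x, hx, y, hy, h⟩
      rw [hmem] at hc hx hy
      refine h ⟨?_, ?_, trivial⟩
      · apply ULift.down_injective
        apply Fin.ext
        rw [hx, hc]
      · apply ULift.down_injective
        apply Fin.ext
        rw [hy, hc]
    · left; exact hc
  have hbig : ∀ k ≤ n, ∀ c : ULift.{u} (Fin n), c.down.val < k →
      c ∈ cev P v (bigJoin n k) := by
    intro k
    induction k with
    | zero => intro _ c hc; omega
    | succ k ih =>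
      intro hk c hc
      rw [show bigJoin n (k + 1) = join (.var k) (bigJoin n k) from rfl, cev_join]
      rcases Nat.lt_succ_iff_lt_or_eq.mp hc with h | h
      · exact Or.inr (ih (by omega) c h)
      · exact Or.inl h
  have herr : ∀ k, cev P v (err n k) = ∅ := by
    intro k
    induction k with
    | zero =>
      change (cev P v (bigJoin n n))ᶜ ∪ v n = ∅
      rw [hvn, Set.union_empty, Set.compl_empty_iff]
      ext c
      exact ⟨fun _ => trivial, fun _ => hbig n le_rfl c c.down.isLt⟩
    | succ k ih =>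
      rw [show err n (k + 1) = join (bad n k) (err n k) from rfl, cev_join, hbad, ih,
        Set.union_empty]
  have hideal := cev_ideal P v n _ (herr n)
  have hpow : ∀ k, cev P v (pow n k) = Set.univ := by
    intro k
    induction k with
    | zero => exact cev_one P v n
    | succ k ih =>
      rw [show pow n (k + 1) = .comp (one n) (pow n k) from rfl, cev, ih, cev_one]
      ext c
      simp only [mem_cComp, Set.mem_univ, true_and, iff_true]
      by_cases hc : c.down.val = 0
      · refine ⟨⟨⟨1, by omega⟩⟩, c, ?_⟩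
        rintro ⟨h, -⟩
        rw [← h] at hc
        exact absurd hc (by simp)
      · refine ⟨⟨⟨0, by omega⟩⟩, c, ?_⟩
        rintro ⟨h, -⟩
        rw [← h] at hc
        exact hc rfl
  have h := hsat v
  rw [eval_colAlg, eval_colAlg] at h
  change cev P v (join (pow n N) (ideal n (err n n))) = cev P v (ideal n (err n n)) at h
  rw [cev_join, hpow, hideal, Set.union_empty] at h
  have h0 : (⟨⟨0, by omega⟩⟩ : ULift.{u} (Fin n)) ∈ (∅ : Set (ULift.{u} (Fin n))) :=
    h ▸ Set.mem_univ _
  exact h0

/-- **The equational theory of representable implication semigroups is not finitely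
axiomatisable**: for every finite set `E` of equations valid in all representable implication
semigroups there is a (finite) algebra satisfying all equations of `E` that fails some equation
valid in all representable implication semigroups. -/
theorem result (E : Set (Term × Term)) (hfin : E.Finite) (hE : E ⊆ EqTheory.{u}) :
    ∃ A : Alg.{u}, Finite A.carrier ∧ (∀ e ∈ E, A.Satisfies e) ∧
      ∃ e ∈ EqTheory.{u}, ¬ A.Satisfies e := by
  obtain ⟨k, hk⟩ : ∃ k, ∀ e ∈ E, e.1.bound ≤ k ∧ e.2.bound ≤ k := by
    obtain ⟨k, hk⟩ := (hfin.image fun e : Term × Term => max e.1.bound e.2.bound).bddAbove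
    exact ⟨k, fun e he => max_le_iff.mp (hk ⟨e, he, rfl⟩)⟩
  have hpos : 1 ≤ 2 ^ k := Nat.one_le_two_pow
  obtain ⟨N, hN⟩ := eqn_mem.{u} (2 ^ k + 1)
  refine ⟨colAlg (ULift.{u} (Fin (2 ^ k + 1))) (fun _ => True), ?_, ?_, eqn (2 ^ k + 1) N, hN,
    eqn_fails (2 ^ k + 1) N (by omega)⟩
  · change Finite (Set (ULift.{u} (Fin (2 ^ k + 1))))
    infer_instance
  · intro e he
    exact colAlg_satisfies k _ (by simp) e (hE he) (hk e he).1 (hk e he).2

end Pool.Agent.Results.MP_634bde_lc.NotFinitelyBased
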